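import Pool.Agent.Helper45.LinK.GoalsN
import Pool.Agent.Helper9.LinK.AFFK
import Pool.Agent.Helper8.Abund.FDerivHolo

/-! Packet FBD (3552): the second fundamental form is bounded along the fibres. -/

set_option autoImplicit false

open Complex Metric Set Filter Topology MeasureTheory
open scoped ContDiff ComplexConjugate ComplexOrder

namespace Pool.Agent.Helper86.LinK

open Pool.Agent.Helper95.Lin Pool.Agent.Helper16.Abund Pool.Agent.Helper92.Orb
open Pool.Agent.Helper45.LinK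
open Pool.Agent.Helper9.LinK (base_io fib_io io_base_fib differentiable_base' vertL vertL_apply
  vert_inj hermi_smul hermi_pos)

variable {b k : ℕ}

theorem norm_vert_le (u : Cn k) : ‖(vert u : Cn (b + k))‖ ≤ ‖u‖ := by
  rw [pi_norm_le_iff_of_nonneg (norm_nonneg _)]
  intro i
  refine Fin.addCases (fun i => ?_) (fun i => ?_) i
  · simp [vert, Fin.append_left]
  · simp only [vert, Fin.append_right]
    exact norm_le_pi_norm u i

theorem norm_hor_le (e : Cn b) : ‖(hor e : Cn (b + k))‖ ≤ ‖e‖ := by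
  rw [pi_norm_le_iff_of_nonneg (norm_nonneg _)]
  intro i
  refine Fin.addCases (fun i => ?_) (fun i => ?_) i
  · simp only [hor, Fin.append_left]
    exact norm_le_pi_norm e i
  · simp [hor, Fin.append_right]

theorem hor_add_vert (η : Cn (b + k)) : (hor (base η) : Cn (b + k)) + vert (fib η) = η := by
  funext i
  refine Fin.addCases (fun i => ?_) (fun i => ?_) i
  · simp [hor, vert, base, Fin.append_left]
  · simp [hor, vert, fib, Fin.append_right]

theorem eq_vert {ξ : Cn (b + k)} (h : base ξ = 0) : ξ = vert (fib ξ) := by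
  have := hor_add_vert ξ
  rw [h] at this
  have h0 : (hor (0 : Cn b) : Cn (b + k)) = 0 := by
    funext i
    refine Fin.addCases (fun i => ?_) (fun i => ?_) i
    · simp [hor, Fin.append_left]
    · simp [hor, Fin.append_right]
  rw [h0, zero_add] at this
  exact this.symm

theorem norm_dz_le {n : ℕ} (f : Cn n → ℂ) (x e : Cn n) : ‖dz e f x‖ ≤ 2 * ‖fderiv ℝ f x‖ * ‖e‖ := by
  unfold dz
  refine (norm_sub_le _ _).trans ?_
  have h1 : ‖fderiv ℝ f x e‖ ≤ ‖fderiv ℝ f x‖ * ‖e‖ := ContinuousLinearMap.le_opNorm _ _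
  have h2 : ‖I • fderiv ℝ f x (I • e)‖ ≤ ‖fderiv ℝ f x‖ * ‖e‖ := by
    rw [norm_smul, Complex.norm_I, one_mul]
    refine (ContinuousLinearMap.le_opNorm _ _).trans ?_
    rw [norm_smul, Complex.norm_I, one_mul]
  linarith

variable {D : Set (Cn b)} {H : Cn (b + k) → Matrix (Fin (b + k)) (Fin (b + k)) ℂ}
  {N : Cn (b + k) → Cn k →L[ℂ] CE k}

theorem hermi_eq {n : ℕ} (A : Matrix (Fin n) (Fin n) ℂ) (ξ η : Cn n) :
    hermi A ξ η = ∑ j, conj (η j) * ∑ i, ξ i * A i j := by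
  unfold hermi
  rw [Finset.sum_comm]
  refine Finset.sum_congr rfl fun j _ => ?_
  rw [Finset.mul_sum]
  exact Finset.sum_congr rfl fun i _ => by ring

theorem fd_hermi {n : ℕ} {H : Cn n → Matrix (Fin n) (Fin n) ℂ} {x : Cn n}
    (hd : ∀ i j, DifferentiableAt ℝ (fun y => H y i j) x) (ξ η w : Cn n) :
    fderiv ℝ (fun y => hermi (H y) ξ η) x w =
      ∑ j, conj (η j) * ∑ i, ξ i * fderiv ℝ (fun y => H y i j) x w := by
  have h1 : (fun y => hermi (H y) ξ η) = fun y => ∑ j, conj (η j) * ∑ i, ξ i * H y i j := by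
    funext y
    exact hermi_eq _ _ _
  have hm : ∀ (c : ℂ) (f : Cn n → ℂ), DifferentiableAt ℝ f x →
      HasFDerivAt (fun y => c * f y) (c • fderiv ℝ f x) x := fun c f hf =>
    hf.hasFDerivAt.const_mul c
  have hs : ∀ (f : Fin n → Cn n → ℂ) (L : Fin n → Cn n →L[ℝ] ℂ), (∀ j, HasFDerivAt (f j) (L j) x) →
      HasFDerivAt (fun y => ∑ j, f j y) (∑ j, L j) x := fun f L h =>
    HasFDerivAt.fun_sum fun j _ => h j
  have h3 : ∀ j, HasFDerivAt (fun y => ∑ i, ξ i * H y i j) (∑ i, ξ i • fderiv ℝ (fun y => H y i j) x) x :=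
    fun j => hs (fun i y => ξ i * H y i j) _ (fun i => hm (ξ i) _ (hd i j))
  have h4 : ∀ j, HasFDerivAt (fun y => conj (η j) * ∑ i, ξ i * H y i j)
      (conj (η j) • ∑ i, ξ i • fderiv ℝ (fun y => H y i j) x) x := by
    intro j
    have := hm (conj (η j)) _ (h3 j).differentiableAt
    rw [(h3 j).fderiv] at this
    exact this
  have h2 : HasFDerivAt (fun y => hermi (H y) ξ η)
      (∑ j, conj (η j) • ∑ i, ξ i • fderiv ℝ (fun y => H y i j) x) x := by
    rw [h1]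
    exact hs (fun j y => conj (η j) * ∑ i, ξ i * H y i j) _ h4
  rw [h2.fderiv]
  simp [Finset.mul_sum]
theorem dz_hermi {n : ℕ} {H : Cn n → Matrix (Fin n) (Fin n) ℂ} {x : Cn n}
    (hd : ∀ i j, DifferentiableAt ℝ (fun y => H y i j) x) (e ξ η : Cn n) :
    dz e (fun y => hermi (H y) ξ η) x =
      ∑ j, conj (η j) * ∑ i, ξ i * dz e (fun y => H y i j) x := by
  unfold dz
  rw [fd_hermi hd, fd_hermi hd, smul_eq_mul, Finset.mul_sum, ← Finset.sum_sub_distrib]
  refine Finset.sum_congr rfl fun j _ => ?_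
  simp only [smul_eq_mul, mul_sub, Finset.sum_sub_distrib]
  congr 1
  rw [Finset.mul_sum, Finset.mul_sum, Finset.mul_sum]
  exact Finset.sum_congr rfl fun i _ => by ring

/-- the coefficients of the second fundamental form -/
noncomputable def cf (H : Cn (b + k) → Matrix (Fin (b + k)) (Fin (b + k)) ℂ)
    (N : Cn (b + k) → Cn k →L[ℂ] CE k) (x : Cn (b + k)) (u u' : Cn k) (j : Fin (b + k)) : ℂ :=
  (∑ i, (vert u' : Cn (b + k)) i * dz (vert u) (fun y => H y i j) x) -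
    ∑ i, (vert (N x u u') : Cn (b + k)) i * H x i j

theorem sff_eq {x : Cn (b + k)} (hd : ∀ i j, DifferentiableAt ℝ (fun y => H y i j) x)
    (u u' : Cn k) (η : Cn (b + k)) :
    sff H N x u u' η = ∑ j, conj (η j) * cf H N x u u' j := by
  unfold sff cf
  rw [dz_hermi hd, hermi_eq, ← Finset.sum_sub_distrib]
  exact Finset.sum_congr rfl fun j _ => by ring

theorem sff_add {x : Cn (b + k)} (hd : ∀ i j, DifferentiableAt ℝ (fun y => H y i j) x)
    (u u' : Cn k) (η η' : Cn (b + k)) :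
    sff H N x u u' (η + η') = sff H N x u u' η + sff H N x u u' η' := by
  rw [sff_eq hd, sff_eq hd, sff_eq hd, ← Finset.sum_add_distrib]
  exact Finset.sum_congr rfl fun j _ => by
    rw [Pi.add_apply, map_add]; ring

theorem bd_on {n : ℕ} {K : Set (Cn n)} (hK : IsCompact K) {f : Cn n → ℝ} (hf : ContinuousOn f K) :
    ∃ C : ℝ, 0 ≤ C ∧ ∀ x ∈ K, f x ≤ C := by
  obtain ⟨C, hC⟩ := hK.bddAbove_image hf
  exact ⟨max C 0, le_max_right _ _, fun x hx =>
    (hC (mem_image_of_mem f hx)).trans (le_max_left _ _)⟩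

theorem norm_app (L : Cn k →L[ℂ] CE k) (u u' : Cn k) : ‖L u u'‖ ≤ ‖L‖ * ‖u‖ * ‖u'‖ := by
  have h5 : ‖L u u'‖ ≤ ‖L u‖ * ‖u'‖ := (L u).le_opNorm u'
  have h6 : ‖L u‖ ≤ ‖L‖ * ‖u‖ := L.le_opNorm u
  exact h5.trans (mul_le_mul_of_nonneg_right h6 (norm_nonneg _))

theorem sff_bound (hM : IsOpen (tubeK D k)) {K : Set (Cn (b + k))} (hK : IsCompact K)
    (hKM : K ⊆ tubeK D k) (hs : ∀ i j, ContDiffOn ℝ ∞ (fun x => H x i j) (tubeK D k))
    (hN : ContinuousOn N (tubeK D k)) :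
    ∃ C : ℝ, 0 ≤ C ∧ ∀ x ∈ K, ∀ u u' : Cn k, ∀ e : Cn b,
      ‖sff H N x u u' (hor e)‖ ≤ C * ‖u‖ * ‖u'‖ * ‖e‖ := by
  have h1 : ∀ i j, ∃ C : ℝ, 0 ≤ C ∧ ∀ x ∈ K, ‖fderiv ℝ (fun y => H y i j) x‖ ≤ C := fun i j =>
    bd_on hK (((hs i j).continuousOn_fderiv_of_isOpen hM (by norm_num)).norm.mono hKM)
  have h2 : ∀ i j, ∃ C : ℝ, 0 ≤ C ∧ ∀ x ∈ K, ‖H x i j‖ ≤ C := fun i j =>
    bd_on hK ((hs i j).continuousOn.norm.mono hKM)
  have hN' : ContinuousOn (fun x => ‖N x‖) K :=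
    (continuous_norm (E := Cn k →L[ℂ] CE k)).comp_continuousOn (hN.mono hKM)
  obtain ⟨CN, hCN0, hCN⟩ := bd_on hK hN'
  choose C1 hC10 hC1 using h1
  choose C2 hC20 hC2 using h2
  refine ⟨∑ j, ∑ i, (2 * C1 i j + CN * C2 i j), Finset.sum_nonneg fun j _ =>
    Finset.sum_nonneg fun i _ => by
      have := hC10 i j; have := hC20 i j; positivity, ?_⟩
  intro x hx u u' e
  have hd : ∀ i j, DifferentiableAt ℝ (fun y => H y i j) x := fun i j =>
    ((hs i j).differentiableOn (by norm_num)).differentiableAt (hM.mem_nhds (hKM hx))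
  rw [sff_eq hd]
  refine (norm_sum_le _ _).trans ?_
  have hj : ∀ j, ‖conj ((hor e : Cn (b + k)) j) * cf H N x u u' j‖ ≤
      (∑ i, (2 * C1 i j + CN * C2 i j)) * ‖u‖ * ‖u'‖ * ‖e‖ := by
    intro j
    rw [norm_mul, RCLike.norm_conj]
    have ha : ‖(hor e : Cn (b + k)) j‖ ≤ ‖e‖ := (norm_le_pi_norm _ j).trans (norm_hor_le e)
    have hb : ‖cf H N x u u' j‖ ≤ (∑ i, (2 * C1 i j + CN * C2 i j)) * ‖u‖ * ‖u'‖ := by
      unfold cf
      refine (norm_sub_le _ _).trans ?_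
      refine (add_le_add (norm_sum_le _ _) (norm_sum_le _ _)).trans ?_
      rw [← Finset.sum_add_distrib, Finset.sum_mul, Finset.sum_mul]
      refine Finset.sum_le_sum fun i _ => ?_
      rw [norm_mul, norm_mul]
      have e1 : ‖(vert u' : Cn (b + k)) i‖ ≤ ‖u'‖ := (norm_le_pi_norm _ i).trans (norm_vert_le u')
      have e2 : ‖dz (vert u) (fun y => H y i j) x‖ ≤ 2 * C1 i j * ‖u‖ := by
        refine (norm_dz_le _ _ _).trans ?_
        have := hC1 i j x hx
        have h5 : ‖(vert u : Cn (b + k))‖ ≤ ‖u‖ := norm_vert_le u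
        have h6 := hC10 i j
        gcongr
      have e3 : ‖(vert (N x u u') : Cn (b + k)) i‖ ≤ CN * ‖u‖ * ‖u'‖ := by
        have h4 : ‖(vert (N x u u') : Cn (b + k)) i‖ ≤ ‖N x u u'‖ :=
          (norm_le_pi_norm (vert (N x u u') : Cn (b + k)) i).trans (norm_vert_le (N x u u'))
        have h5 : ‖N x u u'‖ ≤ ‖N x‖ * ‖u‖ * ‖u'‖ := norm_app (N x) u u'
        have h7 := hCN x hx
        have h8 : ‖N x‖ * ‖u‖ * ‖u'‖ ≤ CN * ‖u‖ * ‖u'‖ :=
          mul_le_mul_of_nonneg_right (mul_le_mul_of_nonneg_right h7 (norm_nonneg _)) (norm_nonneg _)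
        exact h4.trans (h5.trans h8)
      have e4 := hC2 i j x hx
      calc ‖(vert u' : Cn (b + k)) i‖ * ‖dz (vert u) (fun y => H y i j) x‖ +
            ‖(vert (N x u u') : Cn (b + k)) i‖ * ‖H x i j‖
          ≤ ‖u'‖ * (2 * C1 i j * ‖u‖) + (CN * ‖u‖ * ‖u'‖) * C2 i j := by
            gcongr
        _ = (2 * C1 i j + CN * C2 i j) * ‖u‖ * ‖u'‖ := by ring
    calc ‖(hor e : Cn (b + k)) j‖ * ‖cf H N x u u' j‖
        ≤ ‖e‖ * ((∑ i, (2 * C1 i j + CN * C2 i j)) * ‖u‖ * ‖u'‖) := by gcongr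
      _ = _ := by ring
  refine (Finset.sum_le_sum fun j _ => hj j).trans ?_
  rw [← Finset.sum_mul, ← Finset.sum_mul, ← Finset.sum_mul]

theorem herm_low {K : Set (Cn (b + k))} (hK : IsCompact K)
    (hc : ∀ i j, ContinuousOn (fun x => H x i j) K) (hp : ∀ x ∈ K, (H x).PosDef) :
    ∃ c : ℝ, 0 < c ∧ ∀ x ∈ K, ∀ u : Cn k,
      c * ‖u‖ ^ 2 ≤ (hermi (H x) (vert u) (vert u)).re := by
  have hz : ∀ x, (hermi (H x) (vert (0 : Cn k)) (vert (0 : Cn k))).re = 0 := by
    intro x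
    have : (vert (0 : Cn k) : Cn (b + k)) = 0 := by rw [← vertL_apply, map_zero]
    rw [this]
    simp [hermi]
  have hS : IsCompact (K ×ˢ sphere (0 : Cn k) 1) := hK.prod (isCompact_sphere _ _)
  have hf : ContinuousOn (fun p : Cn (b + k) × Cn k => (hermi (H p.1) (vert p.2) (vert p.2)).re)
      (K ×ˢ sphere (0 : Cn k) 1) := by
    have hv : ∀ i, Continuous fun p : Cn (b + k) × Cn k => (vert p.2 : Cn (b + k)) i := by
      intro i
      have h1 : Continuous fun p : Cn (b + k) × Cn k => (vertL p.2 : Cn (b + k)) :=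
        vertL.continuous.comp continuous_snd
      exact (continuous_apply i).comp h1
    have h3 : ∀ i j, ContinuousOn (fun p : Cn (b + k) × Cn k => H p.1 i j)
        (K ×ˢ sphere (0 : Cn k) 1) := fun i j =>
      (hc i j).comp continuousOn_fst (fun p hp => hp.1)
    have h4 : ∀ i j, ContinuousOn (fun p : Cn (b + k) × Cn k =>
        H p.1 i j * (vert p.2 : Cn (b + k)) i * conj ((vert p.2 : Cn (b + k)) j))
        (K ×ˢ sphere (0 : Cn k) 1) := by
      intro i j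
      have h5 : Continuous fun p : Cn (b + k) × Cn k => conj ((vert p.2 : Cn (b + k)) j) :=
        Complex.continuous_conj.comp (hv j)
      exact ((h3 i j).mul (hv i).continuousOn).mul h5.continuousOn
    have h6 : ContinuousOn (fun p : Cn (b + k) × Cn k => hermi (H p.1) (vert p.2) (vert p.2))
        (K ×ˢ sphere (0 : Cn k) 1) := by
      have h7 : ∀ i, ContinuousOn (fun p : Cn (b + k) × Cn k =>
        ∑ j, H p.1 i j * (vert p.2 : Cn (b + k)) i * conj ((vert p.2 : Cn (b + k)) j))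
        (K ×ˢ sphere (0 : Cn k) 1) := fun i => continuousOn_finsetSum _ fun j _ => h4 i j
      exact continuousOn_finsetSum _ fun i _ => h7 i
    exact Complex.continuous_re.comp_continuousOn h6
  obtain ⟨c, hc0, hcb⟩ : ∃ c : ℝ, 0 < c ∧ ∀ x ∈ K, ∀ u ∈ sphere (0 : Cn k) 1,
      c ≤ (hermi (H x) (vert u) (vert u)).re := by
    rcases (K ×ˢ sphere (0 : Cn k) 1).eq_empty_or_nonempty with h | h
    · refine ⟨1, one_pos, fun x hx u hu => ?_⟩
      exact absurd (mk_mem_prod hx hu) (by rw [h]; exact notMem_empty _)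
    · obtain ⟨p, hp1, hp2⟩ := hS.exists_isMinOn h hf
      have hp3 : ∀ x ∈ K, ∀ u ∈ sphere (0 : Cn k) 1,
          (hermi (H p.1) (vert p.2) (vert p.2)).re ≤ (hermi (H x) (vert u) (vert u)).re := by
        intro x hx u hu
        have h6 := (isMinOn_iff.1 hp2) (x, u) (mk_mem_prod hx hu)
        exact h6
      refine ⟨(hermi (H p.1) (vert p.2) (vert p.2)).re, ?_, hp3⟩
      apply hermi_pos (hp _ hp1.1)
      intro h0
      have h1 := vert_inj h0
      have h2 : ‖p.2‖ = 1 := by simpa using hp1.2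
      rw [h1, norm_zero] at h2
      exact zero_ne_one h2
  refine ⟨c, hc0, fun x hx u => ?_⟩
  rcases eq_or_ne u 0 with rfl | hu
  · rw [hz]
    simp
  · have hu' : 0 < ‖u‖ := norm_pos_iff.2 hu
    set u1 : Cn k := ((‖u‖⁻¹ : ℝ) : ℂ) • u with hu1
    have h1 : ‖u1‖ = 1 := by
      rw [hu1, norm_smul, Complex.norm_real, norm_inv, norm_norm, inv_mul_cancel₀ hu'.ne']
    have h2 : u = ((‖u‖ : ℝ) : ℂ) • u1 := by
      rw [hu1, smul_smul, ← Complex.ofReal_mul, mul_inv_cancel₀ hu'.ne', Complex.ofReal_one,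
        one_smul]
    have h3 : (vert u : Cn (b + k)) = ((‖u‖ : ℝ) : ℂ) • vert u1 := by
      rw [← vertL_apply, ← vertL_apply, ← map_smul, ← h2]
    rw [h3, hermi_smul]
    have h4 := hcb x hx u1 (by simpa using h1)
    have h5 : (((‖u‖ ^ 2 : ℝ) : ℂ) * hermi (H x) (vert u1) (vert u1)).re =
        ‖u‖ ^ 2 * (hermi (H x) (vert u1) (vert u1)).re := by
      rw [Complex.re_ofReal_mul]
    rw [h5]
    nlinarith [sq_nonneg ‖u‖]

/-- base as a continuous linear map -/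
noncomputable def baseL : Cn (b + k) →L[ℂ] Cn b :=
  LinearMap.toContinuousLinearMap
    { toFun := fun v => base v
      map_add' := fun _ _ => rfl
      map_smul' := fun _ _ => rfl }

theorem FBD (hFI : S_FI) (hB : S_BASEK) : S_FBD := by
  intro b k D Γ _ F H N hD hA hN z hz
  obtain ⟨g, hg, hFg⟩ := hB hD hA.act
  obtain ⟨K, hKM, hKc, hcoc⟩ := hA.coc
  have hMo := hA.act.isOpen
  obtain ⟨C1, hC10, hC1⟩ := sff_bound hMo hKc hKM hA.smooth hN.smooth.continuousOn
  obtain ⟨c, hc0, hc⟩ := herm_low (H := H) hKc (fun i j => (hA.smooth i j).continuousOn.mono hKM)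
    (fun x hx => hA.posDef x (hKM hx))
  obtain ⟨R0, hR0, hR⟩ := hD.exists_norm_le
  obtain ⟨ρ, hρ0, hρ⟩ := Metric.isOpen_iff.1 hD.isOpen z hz
  have hdg : ∀ γ, ‖fderiv ℂ (g γ) z‖ ≤ R0 / (ρ / 2) := by
    intro γ
    have e : 2 * (ρ / 2) = ρ := by ring
    apply Pool.Agent.Helper8.Abund.norm_fderiv_le_of_bound (by positivity)
    · rw [e]
      exact (hg.holo γ).mono hρ
    · rw [e]
      intro u hu
      exact hR _ (hg.maps γ u (hρ hu))
  set R := R0 / (ρ / 2) with hRdef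
  have hR1 : 0 ≤ R := by positivity
  refine ⟨(C1 * R / c) ^ 2, fun w u u' e => ?_⟩
  set v : Cn (b + k) := Fin.append z w with hv
  have hbv : base v = z := base_io z w
  have hvM : v ∈ tubeK D k := by
    change base v ∈ D
    rw [hbv]; exact hz
  obtain ⟨γ, hγ⟩ := hcoc v hvM
  set J := fderiv ℂ (F γ) v with hJ
  have hFd : DifferentiableAt ℂ (F γ) v :=
    (hA.act.holo γ v hvM).differentiableAt (hMo.mem_nhds hvM)
  have hgd : DifferentiableAt ℂ (g γ) z :=
    (hg.holo γ z hz).differentiableAt (hD.isOpen.mem_nhds hz)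
  have hbase : ∀ ξ : Cn (b + k), base (J ξ) = fderiv ℂ (g γ) z (base ξ) := by
    intro ξ
    have h1 : HasFDerivAt (fun x => baseL (F γ x)) (baseL.comp J) v :=
      baseL.hasFDerivAt.comp v hFd.hasFDerivAt
    have h2 : HasFDerivAt (fun x => g γ (baseL x)) ((fderiv ℂ (g γ) z).comp baseL) v := by
      have h3 : HasFDerivAt (g γ) (fderiv ℂ (g γ) z) (baseL v) := by
        change HasFDerivAt (g γ) (fderiv ℂ (g γ) z) (base v)
        rw [hbv]
        exact hgd.hasFDerivAt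
      exact h3.comp v baseL.hasFDerivAt
    have h4 : (fun x => baseL (F γ x)) =ᶠ[𝓝 v] fun x => g γ (baseL x) := by
      filter_upwards [hMo.mem_nhds hvM] with x hx
      exact hFg γ x hx
    have h5 := h1.unique (h2.congr_of_eventuallyEq h4)
    exact congrArg (fun L : Cn (b + k) →L[ℂ] Cn b => L ξ) h5
  have hbv0 : ∀ y : Cn k, base (vert y : Cn (b + k)) = 0 := fun y => base_io 0 y
  have hvert : ∀ y : Cn k, J (vert y) = vert (fib (J (vert y))) := by
    intro y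
    apply eq_vert
    rw [hbase, hbv0, map_zero]
  have hx : F γ v ∈ tubeK D k := hKM hγ
  have hd : ∀ i j, DifferentiableAt ℝ (fun y => H y i j) (F γ v) := fun i j =>
    ((hA.smooth i j).differentiableOn (by norm_num)).differentiableAt (hMo.mem_nhds hx)
  have hFI' := hFI hA hFg hN γ v hvM u u' (hor e)
  rw [hFI']
  set Lu := fib (J (vert u)) with hLu
  set Lu' := fib (J (vert u')) with hLu'
  have hbh : base (hor e : Cn (b + k)) = e := base_io e 0
  have hsplit : sff H N (F γ v) Lu Lu' (J (hor e)) =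
      sff H N (F γ v) Lu Lu' (hor (fderiv ℂ (g γ) z e)) := by
    have h1 := hor_add_vert (J (hor e))
    rw [hbase, hbh] at h1
    rw [← h1, sff_add hd]
    have h2 : sff H N (F γ v) Lu Lu' (vert (fib (J (hor e)))) = 0 := by
      unfold sff
      rw [hN.eq _ hx, sub_self]
    rw [h2, add_zero]
  rw [hsplit]
  have hq : ∀ y : Cn k, (hermi (H (F γ v)) (vert (fib (J (vert y)))) (vert (fib (J (vert y))))).re =
      (hermi (H v) (vert y) (vert y)).re := by
    intro y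
    rw [← hvert, hA.inv γ v hvM]
  have k1 := hC1 _ hγ Lu Lu' (fderiv ℂ (g γ) z e)
  have k2 : ‖fderiv ℂ (g γ) z e‖ ≤ R * ‖e‖ :=
    ((fderiv ℂ (g γ) z).le_opNorm e).trans (mul_le_mul_of_nonneg_right (hdg γ) (norm_nonneg _))
  have k3 := hc _ hγ Lu
  have k4 := hc _ hγ Lu'
  rw [hLu, hq] at k3
  rw [hLu', hq] at k4
  rw [← hLu] at k3
  rw [← hLu'] at k4
  set q := (hermi (H v) (vert u) (vert u)).re
  set q' := (hermi (H v) (vert u') (vert u')).re
  have k5 : ‖sff H N (F γ v) Lu Lu' (hor (fderiv ℂ (g γ) z e))‖ ≤ C1 * ‖Lu‖ * ‖Lu'‖ * (R * ‖e‖) :=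
    k1.trans (mul_le_mul_of_nonneg_left k2 (by positivity))
  have hq0 : 0 ≤ q := le_trans (by positivity) k3
  calc ‖sff H N (F γ v) Lu Lu' (hor (fderiv ℂ (g γ) z e))‖ ^ 2
      ≤ (C1 * ‖Lu‖ * ‖Lu'‖ * (R * ‖e‖)) ^ 2 := pow_le_pow_left₀ (norm_nonneg _) k5 2
    _ = (C1 * R / c) ^ 2 * ((c * ‖Lu‖ ^ 2) * (c * ‖Lu'‖ ^ 2)) * ‖e‖ ^ 2 := by
        field_simp
    _ ≤ (C1 * R / c) ^ 2 * (q * q') * ‖e‖ ^ 2 := by
        gcongr
    _ = (C1 * R / c) ^ 2 * q * q' * ‖e‖ ^ 2 := by ring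

end Pool.Agent.Helper86.LinK
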